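import Mathlib
import Pool.Agent.H75.TwoArm.Final

set_option autoImplicit false

/-! Critical bond percolation on `ℤ²` in the rectangle `[0,m] × [0,n]` with Dobrushin boundary
conditions: the expected length of the exploration path is of order `n ^ (7/4)`, uniformly over the
rectangles of bounded aspect ratio and over the two marked boundary points. The value `7/4` is the
dimension of SLE(6).

A configuration `ω` gives the state of the edge from `v` to `v + (1,0)` (index `(v, true)`) and of the
edge from `v` to `v + (0,1)` (index `(v, false)`); `true` means open. -/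

namespace Pool.Agent.Results.MP_fe58d8_pr.ExplorationLength

open MeasureTheory
open scoped ENNReal

/-- The state of the edge `e` under the Dobrushin boundary condition in the rectangle
`[0,m] × [0,n]`: the edges with an end outside the rectangle are closed (so the dual edges along the
boundary are dual-open, in particular along the clockwise boundary arc from `(a,0)` to `(b,n)`), the
edges of the counterclockwise boundary arc from `(a,0)` through `(m,0)` and `(m,n)` to `(b,n)` are
open, and the other edges have the state given by `ω`. -/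
def dobrushin (m n a b : ℕ) (ω : (ℤ × ℤ) × Bool → Bool) (e : (ℤ × ℤ) × Bool) : Bool :=
  if e.2 = true then
    decide ((0 ≤ e.1.1 ∧ e.1.1 < m) ∧ (0 ≤ e.1.2 ∧ e.1.2 ≤ n)) &&
      (decide ((e.1.2 = 0 ∧ (a : ℤ) ≤ e.1.1) ∨ (e.1.2 = n ∧ (b : ℤ) ≤ e.1.1)) || ω e)
  else
    decide ((0 ≤ e.1.1 ∧ e.1.1 ≤ m) ∧ (0 ≤ e.1.2 ∧ e.1.2 < n)) && (decide (e.1.1 = m) || ω e)

/-- The four directions, counterclockwise: right, up, left, down. -/
def dir : Fin 4 → ℤ × ℤ := ![(1, 0), (0, 1), (-1, 0), (0, -1)]

/-- The state of the edge which starts at the vertex `v` in direction `k`. -/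
def edgeState (η : (ℤ × ℤ) × Bool → Bool) (v : ℤ × ℤ) (k : Fin 4) : Bool :=
  ![η (v, true), η (v, false), η (v - (1, 0), true), η (v - (0, 1), false)] k

/-- One step of the exploration on the medial lattice. The position `(v, k)` is the medial edge next
to the vertex `v` in the quadrant between the directions `k` and `k + 1` (it separates `v` from the
dual vertex in this quadrant). If the edge from `v` in direction `k` is open, the path follows it,
with the same dual vertex on its left; if it is closed, the path turns around `v`, which stays on its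
right, and crosses into the next quadrant. -/
def step (η : (ℤ × ℤ) × Bool → Bool) (s : (ℤ × ℤ) × Fin 4) : (ℤ × ℤ) × Fin 4 :=
  if edgeState η s.1 s.2 = true then (s.1 + dir s.2, s.2 + 1) else (s.1, s.2 - 1)

/-- The number of steps (medial edges) of the exploration path from `(a,0)` to `(b,n)`: it starts at
the medial edge below left of `(a,0)` and ends at the medial edge above left of `(b,n)`. (The value is
`∞` if the end is never reached.) -/
noncomputable def pathLength (m n a b : ℕ) (ω : (ℤ × ℤ) × Bool → Bool) : ℝ≥0∞ :=
  ⨅ (T : ℕ) (_ : (step (dobrushin m n a b ω))^[T] (((a : ℤ), 0), 2) = (((b : ℤ), (n : ℤ)), 1)),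
    (T : ℝ≥0∞)

/-- The law of critical percolation: all edges are open independently with probability `1/2`. -/
noncomputable def percolation : Measure ((ℤ × ℤ) × Bool → Bool) :=
  Measure.infinitePi (fun _ => (PMF.uniformOfFintype Bool).toMeasure)

theorem result (K : ℕ) :
    ∃ c C : ℝ, 0 < c ∧ 0 < C ∧ ∀ m n a b : ℕ, 1 ≤ m → 1 ≤ n → m ≤ K * n → n ≤ K * m →
      a ≤ m → b ≤ m →
      ENNReal.ofReal (c * (n : ℝ) ^ (7 / 4 : ℝ)) ≤ ∫⁻ ω, pathLength m n a b ω ∂percolation ∧
      ∫⁻ ω, pathLength m n a b ω ∂percolation ≤ ENNReal.ofReal (C * (n : ℝ) ^ (7 / 4 : ℝ)) :=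
  Pool.Agent.H75.TwoArm.length_bounds K

end Pool.Agent.Results.MP_fe58d8_pr.ExplorationLength
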