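import Mathlib
import Pool.Agent.H75.Perc.Wedge

set_option autoImplicit false

/-! Critical bond percolation on `ℤ²` (every edge open with probability `1/2`, independently) in a
half plane (`θ = π`) or a quarter plane (`θ = π/2`) `W` whose sides are parallel to the axes or to
the diagonals: the probability that the origin, the apex of `W`, is connected inside `W` to distance
`n` is of order `n ^ (-π/(3θ))`, the value predicted by conformal invariance and SLE(6).

The configuration `ω` gives the state of the edge from `u` to `u + (1,0)` (index `(u, true)`) and of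
the edge from `u` to `u + (0,1)` (index `(u, false)`); `μ` is the law under which the edges are open
(`ω e = true`) independently with probability `1/2`; `G ω` is the graph of the open edges with both
ends in `W`. -/

namespace Pool.Agent.Results.MP_fe58d8_pr.WedgeOneArm

open MeasureTheory

theorem result
    (μ : Measure ((ℤ × ℤ) × Bool → Bool))
    (hμ : μ = Measure.infinitePi (fun _ => (PMF.uniformOfFintype Bool).toMeasure))
    (W : ℤ × ℤ → Prop) (θ : ℝ)
    (hW : (θ = Real.pi ∧ ((∀ v, W v ↔ v.1 ≤ 0) ∨ (∀ v, W v ↔ 0 ≤ v.1 + v.2))) ∨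
      (θ = Real.pi / 2 ∧ ((∀ v, W v ↔ 0 ≤ v.1 ∧ 0 ≤ v.2) ∨
        (∀ v, W v ↔ -v.1 ≤ v.2 ∧ v.2 ≤ v.1))))
    (G : ((ℤ × ℤ) × Bool → Bool) → SimpleGraph (ℤ × ℤ))
    (hG : ∀ ω, G ω = SimpleGraph.fromRel (fun u v => W u ∧ W v ∧
      ((v = (u.1 + 1, u.2) ∧ ω (u, true) = true) ∨
        (v = (u.1, u.2 + 1) ∧ ω (u, false) = true)))) :
    ∃ c C : ℝ, 0 < c ∧ 0 < C ∧ ∀ n : ℕ, 1 ≤ n →
      c * (n : ℝ) ^ (-(Real.pi / (3 * θ))) ≤
        (μ {ω | ∃ v : ℤ × ℤ, ((n : ℤ) ≤ |v.1| ∨ (n : ℤ) ≤ |v.2|) ∧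
          (G ω).Reachable (0, 0) v}).toReal ∧
      (μ {ω | ∃ v : ℤ × ℤ, ((n : ℤ) ≤ |v.1| ∨ (n : ℤ) ≤ |v.2|) ∧
          (G ω).Reachable (0, 0) v}).toReal ≤ C * (n : ℝ) ^ (-(Real.pi / (3 * θ))) := by
  subst hμ
  obtain rfl : G = Pool.Agent.H75.Perc.GD W := funext hG
  exact Pool.Agent.H75.Perc.wedge W θ hW

end Pool.Agent.Results.MP_fe58d8_pr.WedgeOneArm
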